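import Pool.Agent.H242R3.ES.StmtsN

set_option autoImplicit false
set_option maxHeartbeats 4000000

/-! Task N10b of PROJECT H242-ES (helper841): convexity at the ridges of the flags of an
inscribed cone. -/

open Finset
open scoped Classical

namespace Pool.Agent.H841.ESN10b

open Pool.Agent.H242R3.ES

lemma B_add_left {D : ℕ} (x y z : LV D) : B (x + y) z = B x z + B y z := by
  simp only [B, Pi.add_apply, add_mul, Finset.sum_add_distrib]
  ring

lemma B_smul_left {D : ℕ} (c : ℝ) (x z : LV D) : B (c • x) z = c * B x z := by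
  simp only [B, Pi.smul_apply, smul_eq_mul, mul_sub, Finset.mul_sum, mul_assoc]

/-- the functional `x ↦ -B(x,a)` -/
noncomputable def hL {D : ℕ} (a : LV D) : LV D →ₗ[ℝ] ℝ where
  toFun x := - B x a
  map_add' x y := by rw [B_add_left]; ring
  map_smul' c x := by rw [B_smul_left]; simp

lemma hL_apply {D : ℕ} (a x : LV D) : hL a x = - B x a := rfl

variable {ι : Type} [Fintype ι]

lemma hpos {n : ℕ} {X : ι → LV n} (hX : NC n X) {j : ι} {T : Set ι} (hT : T ∈ FA X j) :
    0 < hL (X j) (Y X T) := by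
  obtain ⟨-, hj, hne, -⟩ := hT
  have h1 : ∃ k ∈ T, k ≠ j := by
    by_contra hcon
    push Not at hcon
    apply hne
    ext k
    constructor
    · intro hk
      exact hcon k hk
    · intro hk
      rw [Set.mem_singleton_iff.mp hk]
      exact hj
  obtain ⟨k, hk, hkj⟩ := h1
  unfold Y
  rw [map_sum]
  apply Finset.sum_pos'
  · intro i _
    rw [hL_apply]
    by_cases hij : i = j
    · rw [hij, hX.null]; simp
    · have := hX.neg i j hij
      linarith
  · refine ⟨k, by simp [hk], ?_⟩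
    rw [hL_apply]
    have := hX.neg k j hkj
    linarith

lemma riesz {E : Type} [AddCommGroup E] [Module ℝ E] {m : ℕ}
    (p : E →ₗ[ℝ] EuclideanSpace ℝ (Fin m)) (hs : Function.Surjective p) (φ : E →ₗ[ℝ] ℝ)
    (hk : ∀ x, p x = 0 → φ x = 0) :
    ∃ n : EuclideanSpace ℝ (Fin m), ∀ x, inner ℝ n (p x) = φ x := by
  obtain ⟨g, hg⟩ := LinearMap.exists_rightInverse_of_surjective p (LinearMap.range_eq_top.mpr hs)
  refine ⟨(InnerProductSpace.toDual ℝ _).symm (LinearMap.toContinuousLinearMap (φ.comp g)),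
    fun x => ?_⟩
  rw [InnerProductSpace.toDual_symm_apply]
  show φ (g (p x)) = φ x
  have h0 : p (g (p x)) = p x := LinearMap.congr_fun hg (p x)
  have h1 : p (g (p x) - x) = 0 := by rw [map_sub, h0, sub_self]
  have h2 := hk _ h1
  rw [map_sub, sub_eq_zero] at h2
  exact h2

lemma kerle {E F : Type} [AddCommGroup E] [Module ℝ E] [AddCommGroup F] [Module ℝ F]
    (p : E →ₗ[ℝ] F) {a b : E}
    (hker : LinearMap.ker p = Submodule.span ℝ {a, b}) (φ : E →ₗ[ℝ] ℝ) (ha : φ a = 0)
    (hb : φ b = 0) : ∀ x, p x = 0 → φ x = 0 := by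
  intro x hx
  have h1 : x ∈ LinearMap.ker p := hx
  rw [hker] at h1
  have h2 : Submodule.span ℝ {a, b} ≤ LinearMap.ker φ := by
    rw [Submodule.span_le]
    intro y hy
    rcases hy with hy | hy
    · rw [hy]; exact ha
    · rw [Set.mem_singleton_iff.mp hy]; exact hb
  exact h2 h1

lemma Y_zero {E : Type} [AddCommGroup E] [Module ℝ E] {X : ι → E} {l : E →ₗ[ℝ] ℝ} {S R : Set ι}
    (hl : ∀ i, i ∈ S ↔ l (X i) = 0) (hR : R ⊆ S) : l (Y X R) = 0 := by
  unfold Y
  rw [map_sum]
  apply Finset.sum_eq_zero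
  intro i hi
  exact (hl i).mp (hR (by simpa using hi))

lemma Y_pos {E : Type} [AddCommGroup E] [Module ℝ E] {X : ι → E} {l : E →ₗ[ℝ] ℝ} {S R : Set ι}
    (hl0 : ∀ i, 0 ≤ l (X i)) (hl : ∀ i, i ∈ S ↔ l (X i) = 0) (hR : ¬ R ⊆ S) : 0 < l (Y X R) := by
  obtain ⟨k, hk, hkS⟩ := Set.not_subset.mp hR
  unfold Y
  rw [map_sum]
  apply Finset.sum_pos'
  · intro i _
    exact hl0 i
  · refine ⟨k, by simp [hk], lt_of_le_of_ne (hl0 k) ?_⟩
    intro h
    exact hkS ((hl k).mpr h.symm)

omit [Fintype ι] in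
lemma exN {m : ℕ} {X : ι → LV (m + 1)} {j o : ι} (hnull : B (X j) (X j) = 0)
    (hopp : Opp X j (X o))
    (p : LV (m + 1) →ₗ[ℝ] EuclideanSpace ℝ (Fin m)) (hs : Function.Surjective p)
    (hker : LinearMap.ker p = Submodule.span ℝ {X j, X o}) {S : Set ι} (hS : Face X S)
    (hj : j ∈ S) (hne : S ≠ Set.univ) :
    ∃ (l : LV (m + 1) →ₗ[ℝ] ℝ) (n : EuclideanSpace ℝ (Fin m)), (∀ i, 0 ≤ l (X i)) ∧
      (∀ i, i ∈ S ↔ l (X i) = 0) ∧ 0 < l (X o) ∧
      ∀ x, inner ℝ n (p x) = hL (X j) x - (hL (X j) (X o) / l (X o)) * l x := by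
  obtain ⟨l, hl0, hl1⟩ := hS
  have hl : l ≠ 0 := by
    intro h
    apply hne
    rw [Set.eq_univ_iff_forall]
    intro i
    rw [hl1, h]
    rfl
  have hlj : l (X j) = 0 := (hl1 j).mp hj
  have hlo : 0 < l (X o) := hopp l hl0 hlj hl
  obtain ⟨n, hn⟩ := riesz p hs (hL (X j) - (hL (X j) (X o) / l (X o)) • l)
    (kerle p hker _ (by
      rw [LinearMap.sub_apply, LinearMap.smul_apply, hlj, hL_apply, hnull]
      simp) (by
      rw [LinearMap.sub_apply, LinearMap.smul_apply, smul_eq_mul, div_mul_cancel₀ _ hlo.ne',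
        sub_self]))
  refine ⟨l, n, hl0, hl1, hlo, fun x => ?_⟩
  rw [hn x, LinearMap.sub_apply, LinearMap.smul_apply, smul_eq_mul]

theorem t : TaskN10b := by
  intro hG2 hPM hInd hSep hN4 hN9 m hm ι _ X hX j o hcom r T T' hTr hT'r hTT hs hs'
  have hfin : Module.finrank ℝ (LV (m + 1)) = m + 2 := by
    rw [Module.finrank_fintype_fun_eq_card]
    simp [Fintype.card_option]
  have hjo : j ≠ o := by
    intro h
    subst h
    apply hcom
    refine ⟨{j}, hX.vert j, ?_, rfl, rfl⟩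
    intro huniv
    have hcard : Fintype.card ι = 1 :=
      Fintype.card_eq_one_iff.mpr ⟨j, fun y => by
        have : y ∈ ({j} : Set ι) := by rw [huniv]; exact Set.mem_univ y
        exact this⟩
    have h1 := finrank_range_le_card (R := ℝ) X
    rw [Set.finrank, hX.span, finrank_top, hfin, hcard] at h1
    omega
  have hopp : Opp X j (X o) := by
    intro l hl hlj hne
    by_contra hcon
    have hlo : l (X o) = 0 := le_antisymm (not_lt.mp hcon) (hl o)
    apply hcom
    refine ⟨{i | l (X i) = 0}, ⟨l, hl, fun i => Iff.rfl⟩, ?_, hlj, hlo⟩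
    intro huniv
    apply hne
    have h1 : (⊤ : Submodule ℝ (LV (m + 1))) ≤ LinearMap.ker l := by
      rw [← hX.span, Submodule.span_le]
      rintro _ ⟨i, rfl⟩
      exact Set.eq_univ_iff_forall.mp huniv i
    exact LinearMap.ext fun x => h1 (Submodule.mem_top : x ∈ ⊤)
  have hg : B (X j) (X o) < 0 := hX.neg j o hjo
  obtain ⟨p, hsurj, hker, hp⟩ := hN9 m (X j) (X o) (hX.null j) (hX.null o) hg
  have h8 : Set8 X j (X o) m p := ⟨hX.vert, hX.span, hfin, by omega, hopp, hsurj, hker⟩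
  obtain ⟨-, hrk, htop, -⟩ := hPM ι (LV (m + 1)) X j m hX.vert hX.span hfin (by omega)
  -- membership in the flags
  have hs1 := hs
  have hs1' := hs'
  unfold Fl at hs1 hs1'
  rw [Finset.mem_filter] at hs1 hs1'
  obtain ⟨-, hcard, hFA, -⟩ := hs1
  obtain ⟨-, hcard', hFA', -⟩ := hs1'
  have hh : ∀ R ∈ insert T r, 0 < hL (X j) (Y X R) := fun R hR => hpos hX (hFA R hR)
  have hh' : ∀ R ∈ insert T' r, 0 < hL (X j) (Y X R) := fun R hR => hpos hX (hFA' R hR)
  set u : Set ι → EuclideanSpace ℝ (Fin m) :=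
    fun R => (hL (X j) (Y X R))⁻¹ • p (Y X R) with hu
  have hgram : ∀ R R', 0 < hL (X j) (Y X R) → 0 < hL (X j) (Y X R') →
      gq (qq X j) (Fq X j o) R R' = inner ℝ (u R) (u R') := by
    intro R R' h1 h2
    rw [hL_apply] at h1 h2
    simp only [hu]
    rw [real_inner_smul_left, real_inner_smul_right, hp, hL_apply, hL_apply]
    unfold gq qq Fq
    have n1 : B (Y X R) (X j) ≠ 0 := by intro h; rw [h] at h1; simp at h1
    have n2 : B (Y X R') (X j) ≠ 0 := by intro h; rw [h] at h2; simp at h2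
    have n3 : B (X j) (X o) ≠ 0 := hg.ne
    generalize B (Y X R) (X j) = a1 at n1
    generalize B (Y X R') (X j) = a2 at n2
    generalize B (X j) (X o) = a3 at n3
    rw [inv_neg, inv_neg]
    field_simp
    ring
  have hindep : ∀ s : Finset (Set ι), s ∈ Fl X j m → (∀ R ∈ s, 0 < hL (X j) (Y X R)) →
      LinearIndependent ℝ (fun i : s => u i) := by
    intro s hsF hspos
    have h1 := hInd ι (LV (m + 1)) X j (X o) m p h8 s hsF
    have h2 := h1.units_smul (fun i : s =>
      Units.mk0 ((hL (X j) (Y X (i : Set ι)))⁻¹) (inv_ne_zero (hspos i i.2).ne'))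
    exact h2
  -- inner products with `u`
  have hin : ∀ (n : EuclideanSpace ℝ (Fin m)) (R : Set ι),
      inner ℝ n (u R) = (hL (X j) (Y X R))⁻¹ * inner ℝ n (p (Y X R)) := by
    intro n R
    simp only [hu]
    rw [real_inner_smul_right]
  have hgam : 0 < hL (X j) (X o) := by
    rw [hL_apply]
    have := hX.neg o j (Ne.symm hjo)
    linarith
  have hTle : rk X T ≤ m + 1 := (hrk _ hs T (Finset.mem_insert_self T r)).2
  have hFT : T ∈ FA X j := hFA T (Finset.mem_insert_self T r)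
  have hFT' : T' ∈ FA X j := hFA' T' (Finset.mem_insert_self T' r)
  -- faces of equal rank
  have heq : ∀ R R' : Set ι, Face X R → Face X R' → R ⊆ R' → rk X R = rk X R' → R = R' := by
    intro R R' hR hR' hsub hrk'
    by_contra hne
    have := (hG2 ι (LV (m + 1)) X R R' hR hR').2.1 (lt_of_le_of_ne hsub hne)
    omega
  obtain ⟨S1, hS1, hS1r, hS1t⟩ := htop _ hs
  obtain ⟨S2, hS2, hS2r, hS2t⟩ := htop _ hs'
  rcases lt_or_eq_of_le hTle with hlt | heqr
  · -- the top face is the same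
    have hS1r' : S1 ∈ r := by
      rcases Finset.mem_insert.mp hS1 with h | h
      · rw [h] at hS1r; omega
      · exact h
    have hS12 : S1 = S2 := by
      apply heq S1 S2 (hFA S1 hS1).1 (hFA' S2 hS2).1
        (hS2t S1 (Finset.mem_insert_of_mem hS1r')) (by rw [hS1r, hS2r])
    subst hS12
    obtain ⟨l, n, -, hl1, -, hn⟩ := exN (hX.null j) hopp p hsurj hker (hFA S1 hS1).1
      (hFA S1 hS1).2.1 (hFA S1 hS1).2.2.2
    obtain ⟨l0, hl0j, hl0o, hl0r, hl0T, hl0T'⟩ := hSep ι (LV (m + 1)) X j (X o) m p h8 r T T'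
      hTr hT'r hTT hs hs' hlt
    obtain ⟨ν, hν⟩ := riesz p hsurj l0 (kerle p hker _ hl0j hl0o)
    have hn1 : ∀ R, 0 < hL (X j) (Y X R) → R ⊆ S1 → inner ℝ n (u R) = 1 := by
      intro R hR hRS
      rw [hin, hn, Y_zero hl1 hRS, mul_zero, sub_zero, inv_mul_cancel₀ hR.ne']
    have h4 := (hN4 (Set ι) m u (qq X j) (Fq X j o) r T T' n n ν hTr hT'r hcard hcard'
      (hindep _ hs hh) (hindep _ hs' hh')
      (fun i hi k hk => hgram i k (hh i hi) (hh k hk))
      (fun i hi k hk => hgram i k (hh' i hi) (hh' k hk))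
      (fun i hi => hn1 i (hh i hi) (hS1t i hi))
      (fun i hi => hn1 i (hh' i hi) (hS2t i hi))
      (fun i hi => by rw [hin, hν, hl0r i hi, mul_zero])
      (by rw [hin, hν]; exact mul_pos (inv_pos.mpr (hh T (Finset.mem_insert_self T r))) hl0T)
      (by
        rw [hin, hν]
        exact mul_neg_of_pos_of_neg (inv_pos.mpr (hh' T' (Finset.mem_insert_self T' r))) hl0T')).1
      (by rw [sub_self, inner_zero_left])
    exact ⟨h4, fun h => by omega⟩
  · -- `T` and `T'` are the top faces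
    have hTS1 : T = S1 := heq T S1 hFT.1 (hFA S1 hS1).1 (hS1t T (Finset.mem_insert_self T r))
      (by rw [hS1r, heqr])
    subst hTS1
    have hS2T' : S2 = T' := by
      rcases Finset.mem_insert.mp hS2 with h | h
      · exact h
      · exfalso
        have h1 : S2 = T := heq S2 T (hFA' S2 hS2).1 hFT.1
          (hS1t S2 (Finset.mem_insert_of_mem h)) (by rw [hS2r, heqr])
        rw [h1] at h
        exact hTr h
    subst hS2T'
    obtain ⟨l, n, hl0, hl1, hlo, hn⟩ := exN (hX.null j) hopp p hsurj hker hFT.1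
      hFT.2.1 hFT.2.2.2
    obtain ⟨l', n', hl0', hl1', hlo', hn'⟩ := exN (hX.null j) hopp p hsurj hker hFT'.1
      hFT'.2.1 hFT'.2.2.2
    have hn1 : ∀ R, 0 < hL (X j) (Y X R) → R ⊆ T → inner ℝ n (u R) = 1 := by
      intro R hR hRS
      rw [hin, hn, Y_zero hl1 hRS, mul_zero, sub_zero, inv_mul_cancel₀ hR.ne']
    have hn1' : ∀ R, 0 < hL (X j) (Y X R) → R ⊆ S2 → inner ℝ n' (u R) = 1 := by
      intro R hR hRS
      rw [hin, hn', Y_zero hl1' hRS, mul_zero, sub_zero, inv_mul_cancel₀ hR.ne']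
    have hnot1 : ¬ T ⊆ S2 := fun h => hTT (heq T S2 hFT.1 hFT'.1 h (by rw [heqr, hS2r]))
    have hnot2 : ¬ S2 ⊆ T := fun h => hTT (heq S2 T hFT'.1 hFT.1 h (by rw [heqr, hS2r])).symm
    have hpT := hh T (Finset.mem_insert_self T r)
    have hpT' := hh' S2 (Finset.mem_insert_self S2 r)
    have hνT : 0 < inner ℝ (n - n') (u T) := by
      rw [inner_sub_left, hn1 T hpT (le_refl T), hin, hn', mul_sub, inv_mul_cancel₀ hpT.ne']
      have h1 : 0 < l' (Y X T) := Y_pos hl0' hl1' hnot1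
      have h2 : 0 < (hL (X j) (Y X T))⁻¹ * (hL (X j) (X o) / l' (X o) * l' (Y X T)) := by
        positivity
      linarith
    have hνT' : inner ℝ (n - n') (u S2) < 0 := by
      rw [inner_sub_left, hn1' S2 hpT' (le_refl S2), hin, hn, mul_sub, inv_mul_cancel₀ hpT'.ne']
      have h1 : 0 < l (Y X S2) := Y_pos hl0 hl1 hnot2
      have h2 : 0 < (hL (X j) (Y X S2))⁻¹ * (hL (X j) (X o) / l (X o) * l (Y X S2)) := by
        positivity
      linarith
    have hν0 : n - n' ≠ 0 := by
      intro h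
      rw [h, inner_zero_left] at hνT
      exact lt_irrefl _ hνT
    have h4 := (hN4 (Set ι) m u (qq X j) (Fq X j o) r T S2 n n' (n - n') hTr hT'r hcard hcard'
      (hindep _ hs hh) (hindep _ hs' hh')
      (fun i hi k hk => hgram i k (hh i hi) (hh k hk))
      (fun i hi k hk => hgram i k (hh' i hi) (hh' k hk))
      (fun i hi => hn1 i (hh i hi) (hS1t i hi))
      (fun i hi => hn1' i (hh' i hi) (hS2t i hi))
      (fun i hi => by
        have hi1 := Finset.mem_insert_of_mem (a := i) (b := T) hi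
        have hi2 := Finset.mem_insert_of_mem (a := i) (b := S2) hi
        rw [inner_sub_left, hn1 i (hh i hi1) (hS1t i hi1), hn1' i (hh' i hi2) (hS2t i hi2),
          sub_self])
      hνT hνT').2 (real_inner_self_pos.mpr hν0)
    exact ⟨h4.le, fun _ => h4⟩

end Pool.Agent.H841.ESN10b
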