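import Pool.Agent.H821R3.ES.K8Com

set_option autoImplicit false
set_option maxHeartbeats 4000000

/-! Task K8a of PROJECT H242-ES (helper841, second copy): the angle sum at a vertex. -/

open Finset
open scoped Classical

namespace Pool.Agent.H841.ESK8a

open Pool.Agent.H242R3.ES Pool.Agent.H821R3.ES

lemma arc (t : ℝ) (ht : 0 < t) :
    Real.arccos ((1 - t ^ 2) / (1 + t ^ 2)) = 2 * Real.arctan t := by
  have h1 : Real.cos (2 * Real.arctan t) = (1 - t ^ 2) / (1 + t ^ 2) := by
    rw [Real.cos_two_mul, Real.cos_sq_arctan]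
    field_simp
    ring
  rw [← h1, Real.arccos_cos]
  · have := Real.arctan_pos.mpr ht
    linarith
  · have := Real.arctan_lt_pi_div_two t
    linarith

lemma Bsum {κ : Type} [Fintype κ] (y : LV 3) (α : κ → ℝ) (N : κ → LV 3) :
    B (∑ F, α F • N F) y = ∑ F, α F * B (N F) y := by
  rw [B_comm]
  have h := map_sum (Bl 3 y) (fun F => α F • N F) Finset.univ
  have h2 : B y (∑ F, α F • N F) = ∑ F, B y (α F • N F) := h
  rw [h2]
  refine Finset.sum_congr rfl fun F _ => ?_
  rw [Bmr, B_comm]

theorem t : TaskK8a := by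
  intro hTL hPhi hK7 ι κ ε _ _ _ V N X hD v o hvo hF
  obtain ⟨a, ha_def⟩ : ∃ a : ℝ, a = -B (V v) (X o) := ⟨_, rfl⟩
  have ha : 0 < a := by
    rcases lt_or_eq_of_le (hD.vx v o) with h | h
    · rw [ha_def]; linarith
    · exact absurd h hvo
  have hBvo : B (V v) (X o) = -a := by rw [ha_def]; ring
  have hBov : B (X o) (V v) = -a := by rw [B_comm]; exact hBvo
  obtain ⟨Q, hQ⟩ : ∃ Q : LV 3, Q = X o + a • V v := ⟨_, rfl⟩
  have hvQ : B (V v) Q = 0 := by rw [hQ, Bar, Bmr, hD.nV, hBvo]; ring
  have hQQ : B Q Q = -a ^ 2 := by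
    rw [hQ]
    simp only [Bar, Bal, Bmr, Bml, hD.nX, hD.nV, hBvo, hBov]
    ring
  obtain ⟨π, hπ, hπs⟩ := proj (V v) Q a ha (hD.nV v) hvQ hQQ
  have hg : ∀ e, B (V v) (X e) = 0 → B (X e) (X o) < 0 := by
    intro e he
    apply hD.xx
    rintro rfl
    exact hvo he
  have hXQ : ∀ e, B (V v) (X e) = 0 → B (X e) Q = B (X e) (X o) := by
    intro e he
    rw [hQ, Bar, Bmr, B_comm (X e) (V v), he]
    ring
  have hb : ∀ F, B (V v) (N F) = 0 → B (N F) (X o) < 0 := by
    intro F hF0
    exact lt_of_le_of_ne (hD.nx F o) (hF F hF0)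
  have hNQ : ∀ F, B (V v) (N F) = 0 → B (N F) Q = B (N F) (X o) := by
    intro F h
    rw [hQ, Bar, Bmr, B_comm (N F) (V v), h]
    ring
  let u : {e : ε // B (V v) (X e) = 0} → EuclideanSpace ℝ (Fin 2) :=
    fun e => (a / (-B (X e.1) (X o))) • π (X e.1)
  have hin : ∀ (x : LV 3) (e : {e : ε // B (V v) (X e) = 0}), B x (V v) = 0 →
      inner ℝ (π x) (u e) =
        a / (-B (X e.1) (X o)) * (B x (X e.1) + B x Q * B (X e.1) (X o) / a ^ 2) := by
    intro x e hx
    simp only [u]
    rw [real_inner_smul_right, hπ, hx, hXQ e.1 e.2]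
    ring
  have huu : ∀ e f : {e : ε // B (V v) (X e) = 0}, inner ℝ (u e) (u f) =
      1 + a ^ 2 * B (X e.1) (X f.1) / (B (X e.1) (X o) * B (X f.1) (X o)) := by
    intro e f
    have n1 := (hg e.1 e.2).ne
    have n2 := (hg f.1 f.2).ne
    have n3 := ha.ne'
    have h0 : u e = (a / (-B (X e.1) (X o))) • π (X e.1) := rfl
    rw [h0, real_inner_smul_left, hin (X e.1) f (by rw [B_comm]; exact e.2), hXQ e.1 e.2]
    generalize B (X e.1) (X o) = g1 at *
    generalize B (X f.1) (X o) = g2 at *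
    rw [div_neg, div_neg]
    field_simp
    ring
  have hu : ∀ k, inner ℝ (u k) (u k) = (1 : ℝ) := by
    intro k
    rw [huu, hD.nX]
    simp
  let pr : κ → Finset {e : ε // B (V v) (X e) = 0} :=
    fun F => Finset.univ.filter (fun k => B (N F) (X k.1) = 0)
  have hpr : ∀ F (k : {e : ε // B (V v) (X e) = 0}), k ∈ pr F ↔ B (N F) (X k.1) = 0 := by
    intro F k
    simp only [pr, Finset.mem_filter, Finset.mem_univ, true_and]
  let τ : κ → ℝ := fun F => Real.arctan (B (V v) (X o) / B (N F) (X o))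
  have hval : ∀ F, B (V v) (N F) = 0 → ∀ i k : {e : ε // B (V v) (X e) = 0}, i ≠ k →
      i ∈ pr F → k ∈ pr F → inner ℝ (u i) (u k) =
        (1 - (B (V v) (X o) / B (N F) (X o)) ^ 2) /
          (1 + (B (V v) (X o) / B (N F) (X o)) ^ 2) := by
    intro F hF0 i k hik hi hk
    rw [hpr] at hi hk
    have hne : (i.1 : ε) ≠ k.1 := fun h => hik (Subtype.ext h)
    have h7 := hK7 (V v) (N F) (X i.1) (X k.1) (X o) (hD.nV v) (hD.nN F) hF0 i.2 k.2 hi hk
      (hD.nX _) (hD.nX _) (hD.xx _ _ hne).ne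
    rw [hD.nX, zero_mul, hBvo] at h7
    rw [huu, hBvo]
    have n1 := (hg i.1 i.2).ne
    have n2 := (hg k.1 k.2).ne
    have n3 := (hb F hF0).ne
    have n4 : (-a) ^ 2 + B (N F) (X o) ^ 2 ≠ 0 := by
      have : 0 < a ^ 2 := by positivity
      have : 0 ≤ B (N F) (X o) ^ 2 := sq_nonneg _
      nlinarith
    have n5 : 1 + (-a / B (N F) (X o)) ^ 2 ≠ 0 := by positivity
    generalize B (X i.1) (X o) = g1 at *
    generalize B (X k.1) (X o) = g2 at *
    generalize B (N F) (X o) = b at *
    generalize B (X i.1) (X k.1) = w at *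
    have hw : w = -2 * (g1 * g2) / ((-a) ^ 2 + b ^ 2) := by
      rw [eq_div_iff n4]
      linarith
    rw [hw, eq_div_iff n5]
    field_simp
    ring
  have htau : ∀ F, B (V v) (N F) = 0 → 0 < B (V v) (X o) / B (N F) (X o) := by
    intro F hF0
    rw [hBvo]
    exact div_pos_of_neg_of_neg (by linarith) (hb F hF0)
  -- the pair of a facet
  have hpair : ∀ F, B (V v) (N F) = 0 → ∃ e f : {e : ε // B (V v) (X e) = 0}, e ≠ f ∧
      pr F = {e, f} := by
    intro F hF0
    obtain ⟨e, f, hef, h⟩ := hD.fl v F hF0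
    have he := (h e).2 (Or.inl rfl)
    have hf := (h f).2 (Or.inr rfl)
    refine ⟨⟨e, he.1⟩, ⟨f, hf.1⟩, fun h0 => hef (congrArg Subtype.val h0), ?_⟩
    ext k
    rw [hpr, Finset.mem_insert, Finset.mem_singleton]
    constructor
    · intro hk
      rcases (h k.1).1 ⟨k.2, hk⟩ with h0 | h0
      · exact Or.inl (Subtype.ext h0)
      · exact Or.inr (Subtype.ext h0)
    · rintro (rfl | rfl)
      · exact he.2
      · exact hf.2
  -- injectivity
  have hinj : ∀ F G, B (V v) (N F) = 0 → B (V v) (N G) = 0 → pr F = pr G → F = G := by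
    intro F G hF0 hG0 hFG
    by_contra hne
    obtain ⟨e, f, hef, hpF⟩ := hpair F hF0
    have heF : e ∈ pr F := by rw [hpF]; simp
    have hfF : f ∈ pr F := by rw [hpF]; simp
    have heG : e ∈ pr G := hFG ▸ heF
    have hfG : f ∈ pr G := hFG ▸ hfF
    rw [hpr] at heF hfF heG hfG
    have key : ∀ g : ε, B (N F) (X g) = 0 → B (N G) (X g) = 0 →
        ∃ c : ℝ, 0 < c ∧ N F + N G = c • X g := by
      intro g h1 h2
      obtain ⟨i, j, hij, h, c, hc, hsum⟩ := hD.sN g
      rcases (h F).1 h1 with rfl | rfl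
      · rcases (h G).1 h2 with h3 | rfl
        · exact absurd h3.symm hne
        · exact ⟨c, hc, hsum⟩
      · rcases (h G).1 h2 with rfl | h3
        · exact ⟨c, hc, by rw [add_comm]; exact hsum⟩
        · exact absurd h3.symm hne
    obtain ⟨c, hc, h1⟩ := key e.1 heF heG
    obtain ⟨c', hc', h2⟩ := key f.1 hfF hfG
    have h3 : B (X e.1) (c • X e.1) = B (X e.1) (c' • X f.1) := by rw [← h1, ← h2]
    rw [Bmr, Bmr, hD.nX, mul_zero] at h3
    have h4 := hD.xx e.1 f.1 (fun h => hef (Subtype.ext h))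
    have h5 : c' * B (X e.1) (X f.1) < 0 := mul_neg_of_pos_of_neg hc' h4
    linarith
  let A : Finset κ := Finset.univ.filter (fun F => B (V v) (N F) = 0)
  have hA : ∀ F, F ∈ A ↔ B (V v) (N F) = 0 := by
    intro F
    simp only [A, Finset.mem_filter, Finset.mem_univ, true_and]
  have hsum := TLsum hTL hPhi u (A.image pr) hu ?_ ?_ ?_
    (fun s => ∑ F ∈ A.filter (fun F => pr F = s), 2 * τ F) ?_
  · rw [Finset.sum_fiberwise_of_maps_to (fun F hF => Finset.mem_image_of_mem pr hF),
      ← Finset.mul_sum] at hsum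
    have : ∑ F ∈ A, τ F = Real.pi := by linarith
    exact this
  · -- condition 1
    intro n hn
    by_contra hcon
    push Not at hcon
    apply hn
    obtain ⟨x, hxv, hxQ, rfl⟩ := hπs n
    obtain ⟨α, hα0, hα1, hxα⟩ := hD.rV v x hxv (by
      intro e he
      have h1 := hcon ⟨e, he⟩
      rw [hin x _ hxv, hxQ, zero_mul, zero_div, add_zero] at h1
      have h2 : 0 < a / (-B (X e) (X o)) := div_pos ha (by have := hg e he; linarith)
      by_contra h3
      rw [not_le] at h3
      have := mul_pos h2 h3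
      exact absurd h1 (not_le.mpr this))
    have h3 : B x (X o) = 0 := by
      have : B x Q = B x (X o) + a * B x (V v) := by rw [hQ, Bar, Bmr]
      rw [hxQ, hxv, mul_zero, add_zero] at this
      exact this.symm
    rw [hxα, Bsum] at h3
    have h4 : ∀ F, α F * B (N F) (X o) ≤ 0 := fun F =>
      mul_nonpos_of_nonneg_of_nonpos (hα0 F) (hD.nx F o)
    have h5 : ∀ F, α F = 0 := by
      intro F
      by_contra hne
      have h6 := (Finset.sum_eq_zero_iff_of_nonpos (fun F _ => h4 F)).mp h3 F (Finset.mem_univ F)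
      rcases mul_eq_zero.mp h6 with h7 | h7
      · exact hne h7
      · exact (hb F (hα1 F hne)).ne h7
    have h6 : x = 0 := by
      rw [hxα]
      exact Finset.sum_eq_zero fun F _ => by rw [h5 F, zero_smul]
    rw [h6, map_zero]
  · -- condition 2
    intro s hs
    obtain ⟨F, hFA, rfl⟩ := Finset.mem_image.mp hs
    rw [hA] at hFA
    obtain ⟨e, f, hef, hpF⟩ := hpair F hFA
    have heF : e ∈ pr F := by rw [hpF]; simp
    have hfF : f ∈ pr F := by rw [hpF]; simp
    have hv := hval F hFA e f hef heF hfF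
    have ht := htau F hFA
    refine ⟨e, f, hef, by rw [hpF]; ext z; simp, ?_, ?_,
      (a / (-B (N F) (X o))) • π (N F), ?_, ?_⟩
    · rw [hv, lt_div_iff₀ (by positivity)]
      nlinarith
    · rw [hv, div_lt_one (by positivity)]
      nlinarith [sq_pos_of_pos ht]
    · intro k
      have h1 : B (N F) (V v) = 0 := by rw [B_comm]; exact hFA
      rw [real_inner_smul_left, hin (N F) k h1, hNQ F hFA]
      have n1 := hg k.1 k.2
      have n2 := hb F hFA
      have h2 := hD.nx F k.1
      have e1 : a / -B (N F) (X o) * (a / -B (X k.1) (X o) * (B (N F) (X k.1) +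
          B (N F) (X o) * B (X k.1) (X o) / a ^ 2)) =
          1 + a ^ 2 / (B (N F) (X o) * B (X k.1) (X o)) * B (N F) (X k.1) := by
        have n3 := n1.ne
        have n4 := n2.ne
        have n5 := ha.ne'
        generalize B (N F) (X o) = b1 at *
        generalize B (X k.1) (X o) = b2 at *
        rw [div_neg, div_neg]
        field_simp
        ring
      rw [e1]
      have h3 : 0 < B (N F) (X o) * B (X k.1) (X o) := mul_pos_of_neg_of_neg n2 n1
      have h4 : a ^ 2 / (B (N F) (X o) * B (X k.1) (X o)) * B (N F) (X k.1) ≤ 0 :=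
        mul_nonpos_of_nonneg_of_nonpos (by positivity) h2
      linarith
    · intro k
      have h1 : B (N F) (V v) = 0 := by rw [B_comm]; exact hFA
      rw [real_inner_smul_left, hin (N F) k h1, hNQ F hFA, hpr]
      have n1 := hg k.1 k.2
      have n2 := hb F hFA
      have e1 : a / -B (N F) (X o) * (a / -B (X k.1) (X o) * (B (N F) (X k.1) +
          B (N F) (X o) * B (X k.1) (X o) / a ^ 2)) =
          1 + a ^ 2 / (B (N F) (X o) * B (X k.1) (X o)) * B (N F) (X k.1) := by
        have n3 := n1.ne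
        have n4 := n2.ne
        have n5 := ha.ne'
        generalize B (N F) (X o) = b1 at *
        generalize B (X k.1) (X o) = b2 at *
        rw [div_neg, div_neg]
        field_simp
        ring
      rw [e1]
      have h3 : 0 < B (N F) (X o) * B (X k.1) (X o) := mul_pos_of_neg_of_neg n2 n1
      have h4 : 0 < a ^ 2 / (B (N F) (X o) * B (X k.1) (X o)) := by positivity
      constructor
      · intro h5
        rw [h5, mul_zero, add_zero]
      · intro h5
        have h6 : a ^ 2 / (B (N F) (X o) * B (X k.1) (X o)) * B (N F) (X k.1) = 0 := by linarith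
        exact (mul_eq_zero.mp h6).resolve_left h4.ne'
  · -- condition 3
    intro n hn1 _
    obtain ⟨x, hxv, hxQ, rfl⟩ := hπs n
    have hval2 : ∀ k : {e : ε // B (V v) (X e) = 0},
        inner ℝ (π x) (u k) = a / (-B (X k.1) (X o)) * B x (X k.1) := by
      intro k
      rw [hin x k hxv, hxQ, zero_mul, zero_div, add_zero]
    have hyX : ∀ k : {e : ε // B (V v) (X e) = 0},
        B (Q + a • x) (X k.1) = B (X k.1) (X o) * (1 - inner ℝ (π x) (u k)) := by
      intro k
      rw [hval2, Bal, Bml, B_comm Q, hXQ k.1 k.2]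
      have n1 := (hg k.1 k.2).ne
      rw [div_neg]
      field_simp
      ring
    obtain ⟨α, hα0, hα1, hxα⟩ := hD.rV v (Q + a • x) (by
      rw [Bal, Bml, hxv, B_comm, hvQ]; ring) (by
      intro e he
      have h1 := hyX ⟨e, he⟩
      rw [h1]
      exact mul_nonpos_of_nonpos_of_nonneg (hg e he).le (by linarith [hn1 ⟨e, he⟩]))
    have hyQ : B (Q + a • x) Q = -a ^ 2 := by rw [Bal, Bml, hQQ, hxQ]; ring
    obtain ⟨F, hFne⟩ : ∃ F, α F ≠ 0 := by
      by_contra hcon
      push Not at hcon
      have h0 : Q + a • x = 0 := by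
        rw [hxα]
        exact Finset.sum_eq_zero fun F _ => by rw [hcon F, zero_smul]
      rw [h0] at hyQ
      have h1 : B (0 : LV 3) Q = 0 := by
        rw [B_comm]
        exact (Bl 3 Q).map_zero
      rw [h1] at hyQ
      have : 0 < a ^ 2 := by positivity
      linarith
    refine ⟨pr F, Finset.mem_image_of_mem pr ((hA F).2 (hα1 F hFne)), ?_⟩
    intro k hk
    rw [hpr]
    have h1 := hyX k
    rw [hk, sub_self, mul_zero, hxα, Bsum] at h1
    have h4 : ∀ G, α G * B (N G) (X k.1) ≤ 0 := fun G =>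
      mul_nonpos_of_nonneg_of_nonpos (hα0 G) (hD.nx G k.1)
    have h6 := (Finset.sum_eq_zero_iff_of_nonpos (fun G _ => h4 G)).mp h1 F (Finset.mem_univ F)
    exact (mul_eq_zero.mp h6).resolve_left hFne
  · -- the angles
    intro s hs i k hik hsik
    obtain ⟨F, hFA, hFs⟩ := Finset.mem_image.mp hs
    rw [hA] at hFA
    have h1 : A.filter (fun G => pr G = s) = {F} := by
      ext G
      rw [Finset.mem_filter, hA, Finset.mem_singleton]
      constructor
      · rintro ⟨h2, h3⟩
        exact hinj G F h2 hFA (by rw [h3, hFs])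
      · rintro rfl
        exact ⟨hFA, hFs⟩
    show ∑ G ∈ A.filter (fun G => pr G = s), 2 * τ G = _
    rw [h1, Finset.sum_singleton]
    have hi : i ∈ pr F := by rw [hFs, hsik]; simp
    have hk : k ∈ pr F := by rw [hFs, hsik]; simp
    rw [hval F hFA i k hik hi hk, arc _ (htau F hFA)]

end Pool.Agent.H841.ESK8a
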