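import Pool.Agent.H841.ES.N10b

set_option autoImplicit false
set_option maxHeartbeats 4000000

/-! Task N10a of PROJECT H242-ES (helper841, second copy): the total solid angle of the flags of
an inscribed cone is one. -/

open Finset MeasureTheory
open scoped Classical

namespace Pool.Agent.H841.ESN10a

open Pool.Agent.H242R3.ES Pool.Agent.H841.ESN10b

theorem t : TaskN10a := by
  intro hPM hTile hN9 m hm ι _ X hX j o hcom
  have hfin : Module.finrank ℝ (LV (m + 1)) = m + 2 := by
    rw [Module.finrank_fintype_fun_eq_card]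
    simp [Fintype.card_option]
  have hjo : j ≠ o := by
    intro h
    subst h
    apply hcom
    refine ⟨{j}, hX.vert j, ?_, rfl, rfl⟩
    intro huniv
    have hcard : Fintype.card ι = 1 :=
      Fintype.card_eq_one_iff.mpr ⟨j, fun y => by
        have : y ∈ ({j} : Set ι) := by rw [huniv]; exact Set.mem_univ y
        exact this⟩
    have h1 := finrank_range_le_card (R := ℝ) X
    rw [Set.finrank, hX.span, finrank_top, hfin, hcard] at h1
    omega
  have hopp : Opp X j (X o) := by
    intro l hl hlj hne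
    by_contra hcon
    have hlo : l (X o) = 0 := le_antisymm (not_lt.mp hcon) (hl o)
    apply hcom
    refine ⟨{i | l (X i) = 0}, ⟨l, hl, fun i => Iff.rfl⟩, ?_, hlj, hlo⟩
    intro huniv
    apply hne
    have h1 : (⊤ : Submodule ℝ (LV (m + 1))) ≤ LinearMap.ker l := by
      rw [← hX.span, Submodule.span_le]
      rintro _ ⟨i, rfl⟩
      exact Set.eq_univ_iff_forall.mp huniv i
    exact LinearMap.ext fun x => h1 (Submodule.mem_top : x ∈ ⊤)
  have hg : B (X j) (X o) < 0 := hX.neg j o hjo
  obtain ⟨p, hsurj, hker, hp⟩ := hN9 m (X j) (X o) (hX.null j) (hX.null o) hg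
  have h8 : Set8 X j (X o) m p := ⟨hX.vert, hX.span, hfin, by omega, hopp, hsurj, hker⟩
  have hmem : ∀ s ∈ Fl X j m, ∀ T ∈ s, 0 < hL (X j) (Y X T) := by
    intro s hs T hT
    unfold Fl at hs
    rw [Finset.mem_filter] at hs
    exact hpos hX (hs.2.2.1 T hT)
  obtain ⟨hli, hsum⟩ := hTile ι (LV (m + 1)) X j (X o) m p h8
    (fun R => (hL (X j) (Y X R))⁻¹) (fun s hs T hT => inv_pos.mpr (hmem s hs T hT))
  set u : Set ι → EuclideanSpace ℝ (Fin m) :=
    fun R => (hL (X j) (Y X R))⁻¹ • p (Y X R) with hu
  have hgram : ∀ R R', 0 < hL (X j) (Y X R) → 0 < hL (X j) (Y X R') →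
      gq (qq X j) (Fq X j o) R R' = inner ℝ (u R) (u R') := by
    intro R R' h1 h2
    rw [hL_apply] at h1 h2
    simp only [hu]
    rw [real_inner_smul_left, real_inner_smul_right, hp, hL_apply, hL_apply]
    unfold gq qq Fq
    have n1 : B (Y X R) (X j) ≠ 0 := by intro h; rw [h] at h1; simp at h1
    have n2 : B (Y X R') (X j) ≠ 0 := by intro h; rw [h] at h2; simp at h2
    have n3 : B (X j) (X o) ≠ 0 := hg.ne
    generalize B (Y X R) (X j) = a1 at n1
    generalize B (Y X R') (X j) = a2 at n2
    generalize B (X j) (X o) = a3 at n3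
    rw [inv_neg, inv_neg]
    field_simp
    ring
  have hGM : ∀ s ∈ Fl X j m, GMq (qq X j) s (Fq X j o) = GU s u := by
    intro s hs
    ext i k
    exact hgram i k (hmem s hs i i.2) (hmem s hs k k.2)
  constructor
  · intro s hs
    rw [hGM s hs]
    exact Matrix.posDef_gram_of_linearIndependent (hli s hs)
  · rw [← hsum]
    apply Finset.sum_congr rfl
    intro s hs
    unfold omq
    rw [hGM s hs]
    congr 1
    have hex : (fun x : s → ℝ => exq (qq X j) s (Fq X j o) x) = fun x : s → ℝ =>
        Real.exp (-Real.pi * ∑ i : s, ∑ k : s, x i * inner ℝ (u i) (u k) * x k) := by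
      funext x
      unfold exq
      congr 2
      refine Finset.sum_congr rfl fun i _ => Finset.sum_congr rfl fun k _ => ?_
      rw [hgram i k (hmem s hs i i.2) (hmem s hs k k.2)]
    rw [hex]
    rfl

end Pool.Agent.H841.ESN10a
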